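import Mathlib
import Pool.Agent.W512.RamDefs
import Pool.Agent.W512.RQ

/-!
# The surface of Ramanujam contains no once-punctured curve

`coordinateRing` is the coordinate ring of the surface of Ramanujam, a smooth contractible complex
affine surface of logarithmic general type; see `Pool.Agent.W512.RamDefs`.  The closed irreducible
curves in the surface correspond to the prime ideals of the coordinate ring that are neither zero nor
maximal.  We show that none of these curves has exactly one place at infinity.
-/

set_option autoImplicit false

namespace Pool.Agent.Results.MP_f311df_ag.NoOncePuncturedCurve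

open Pool.Agent.W512.Ramanujam

/-- No closed irreducible curve in the surface of Ramanujam is a once-punctured curve. -/
theorem result (𝔭 : Ideal coordinateRing) [𝔭.IsPrime] (h₀ : 𝔭 ≠ ⊥) (h₁ : ¬ 𝔭.IsMaximal) :
    ¬ OncePunctured (coordinateRing ⧸ 𝔭) :=
  Pool.Agent.W512.Ram.no_curve 𝔭 h₀ h₁

end Pool.Agent.Results.MP_f311df_ag.NoOncePuncturedCurve
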